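import Pool.Agent.Run7.h467.GA.One
import Pool.Agent.Results.MP_e54452_nt.AlmostAllTuples

/-!
# Zagier's dimension conjecture and the relations of one weight at the entries of all good rational approximations

Let `Z_n` be the space of the multiple zeta values of weight `n` and `d_n = d_(n-2) + d_(n-3)`, `d_0 = d_2 = 1`, `d_1 = 0`. Let `G`
be a `ℚ`-algebra without zero divisors with elements `mot(q)` for the admissible indices `q`, `mot() = 1`, that have the
stuffle product, and with a ring homomorphism `per` to `ℂ` that maps `mot(q)` to `ζ(q)`; for example the motivic multiple zeta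
values. For these the elements of weight `n` span a space of dimension `d_n` (Goncharov, Brown).

A pattern in `k` variables is a list of letters `b + u_1 s_1 + ... + u_k s_k` with natural numbers `b`, `u_j`; at a
tuple `s` of natural numbers it gives an index. Its constant part is the list of its first letters up to the first letter
that depends on the variables. We consider patterns `w_1, ..., w_r` which have the same weight for all `s`, and the linear
relations between the numbers `ζ(w_i(s))`, all of them in one of the spaces `Z_n`. The relation lifts if it holds for the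
`mot(w_i(s))`.

Let `α` be a point of `ℝ ^ d`, and let `(p, q)`, `p ∈ ℤ ^ d`, run through its approximations with
`|α_i - p_i / q| ≤ c q ^ (-1-σ)`; by Dirichlet's theorem there are infinitely many for `σ = 1 / d`, `c = 1`, for every `α`.
We consider ALL tuples `s` of `k ≤ d + 1` natural numbers of the same order of magnitude which are small linearly independent
combinations `u_j · p + v_j q` of the entries of such an approximation, up to small errors: with coefficients at most
`c q ^ η` and errors at most `c q ^ θ`. For example `s = (q, p_1, ..., p_d)` or `s = (p_1, ..., p_d)`, with errors at most `c`.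
The relations lift generically, for a class of patterns, if for all `k`, `d`, `σ`, `η`, `θ` and all `α` but a set of
Hausdorff dimension at most `(d + (k (d + 2) - 1) η + k θ) / (1 + σ)`, for all patterns of the class in `k` variables and
all `C`, `c`, all relations with integer coefficients at most `C ^ q` lift for all these tuples, for all large `q`. For
`σ = 1 / d` the bound is smaller than `d` if `(k (d + 2) - 1) η + k θ < 1`; it is `d ^ 2 / (d + 1)` for `η = θ = 0`.

Theorem.
(1) Let the dimension of the space of the `mot(q)` of weight `n` be `d_n` for all `n`, and let `N` be a natural number or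
infinite. Then `dim Z_n = d_n` for all `n ≤ N`, if and only if the relations lift generically for patterns of the same
weight with constant parts of weight at most `N`, and if and only if for all such patterns in one variable that contain the
variable this is so at one real number `α` (for `σ = 1`, `η = θ = 0`). For `N` infinite the first statement is Q1.
(2) The relations lift generically for patterns of the same weight whose constant parts have weight at most four or are of the
form `(2 m, ..., 2 m)`, for example empty, if the relations of weight three and four and Euler's relations hold for the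
`mot(q)`, as for the motivic multiple zeta values.

`MP_e54452_nt.AlmostAllTuples` (starting file) has such statements for all but `K N ^ (k - 1)` of the tuples in `[N, κ N] ^ k`.
This does not exclude exceptional tuples near all directions. The good approximations are a very thin set of vectors; the size
of the set of the exceptional `α` is estimated by the Hausdorff-Cantelli lemma, after a count of the vectors `(q, p)` for which
some independent small forms are near an exceptional tuple (`Pool.Agent.Run7.h467.GA`).
-/

set_option autoImplicit false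

open Filter MeasureTheory

namespace Pool.Agent.Results.MP_56e040_nt.GoodApproximations

open MP_e54452_nt.AlmostAllTuples (mzv Letter index AdmissiblePattern Admissible constantPart HasVariable SameWeight Lifts
  SmallRelations EulerRelations MotivicValues AlmostAll FrontSet)

/-- the numbers `d_n` -/
def dz : ℕ → ℕ
  | 0 => 1
  | 1 => 0
  | 2 => 1
  | n + 3 => dz (n + 1) + dz n

/-- the space `Z_n` of the multiple zeta values of weight `n` -/
noncomputable def Z (n : ℕ) : Submodule ℚ ℝ := Submodule.span ℚ (mzv '' {q | Admissible q ∧ q.sum = n})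

/-- for every `n` the elements `mot(q)` of weight `n` span a space of dimension `d_n` -/
def HasDimensions (G : MotivicValues) : Prop :=
  ∀ n, Module.finrank ℚ (Submodule.span ℚ (G.mot '' {q | Admissible q ∧ q.sum = n})) = dz n

/-- The members of the tuple `s` are at distance at most `c q ^ θ` from the values `u_j · p + v_j q` of linearly independent
integral linear forms with coefficients at most `c q ^ η`. -/
def NearForms {d k : ℕ} (η θ c : ℝ) (p : Fin d → ℤ) (q : ℕ) (s : Fin k → ℕ) : Prop :=
  ∃ (u : Fin k → Fin d → ℤ) (v : Fin k → ℤ),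
    (∀ a : Fin k → ℤ, (∀ i, ∑ j, a j * u j i = 0) → ∑ j, a j * v j = 0 → a = 0) ∧
    (∀ j i, |(u j i : ℝ)| ≤ c * (q : ℝ) ^ η) ∧ (∀ j, |(v j : ℝ)| ≤ c * (q : ℝ) ^ η) ∧
    ∀ j, |(s j : ℝ) - (∑ i, (u j i : ℝ) * p i + v j * q)| ≤ c * (q : ℝ) ^ θ

/-- For all `C`, `c`, all large `q` and all `p` with `|α_i - p_i / q| ≤ c q ^ (-1-σ)` the linear relations between the numbers
`ζ(w_i(s))` with integer coefficients at most `C ^ q` hold for the `mot(w_i(s))`, for all tuples `s` of natural numbers near
independent small forms in `(p, q)`, with `s_i ≤ c s_j` and `q ≤ c s_j` for all `i`, `j`. -/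
def LiftsNear (G : MotivicValues) {k r d : ℕ} (w : Fin r → List (Letter k)) (σ η θ : ℝ) (α : Fin d → ℝ) : Prop :=
  ∀ C c : ℝ, ∃ Q : ℕ, ∀ (p : Fin d → ℤ) (q : ℕ), Q ≤ q → (∀ i, |α i - p i / q| ≤ c / (q : ℝ) ^ (1 + σ)) →
    ∀ s : Fin k → ℕ, (∀ i j, (s i : ℝ) ≤ c * s j) → (∀ j, (q : ℝ) ≤ c * s j) → NearForms η θ c p q s →
      Lifts G w (C ^ q) s

/-- For all `k ≥ 1`, `d`, `σ`, `η`, `θ` the set of the `α` in `ℝ ^ d` for which `LiftsNear` fails for some admissible patterns in
`k` variables, of the same weight, whose constant parts have the property `P`, has Hausdorff dimension at most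
`(d + (k (d + 2) - 1) η + k θ) / (1 + σ)`. -/
def Generic (G : MotivicValues) (P : List ℕ → Prop) : Prop :=
  ∀ k : ℕ, 1 ≤ k → ∀ (d : ℕ) (σ η θ : ℝ), 0 ≤ σ → 0 ≤ η → 0 ≤ θ → θ ≤ 1 →
    dimH {α : Fin d → ℝ | ∃ (r : ℕ) (w : Fin r → List (Letter k)), SameWeight w ∧
      (∀ i, AdmissiblePattern (w i) ∧ P (constantPart (w i))) ∧ ¬ LiftsNear G w σ η θ α} ≤
        ENNReal.ofReal ((d + (k * (d + 2) - 1) * η + k * θ) / (1 + σ))

/-- For all admissible patterns in one variable, of the same weight, which contain the variable and whose constant parts have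
the property `P`, `LiftsNear` holds at one real number. -/
def OnePoint (G : MotivicValues) (P : List ℕ → Prop) : Prop :=
  ∀ (r : ℕ) (w : Fin r → List (Letter 1)), SameWeight w →
    (∀ i, AdmissiblePattern (w i) ∧ P (constantPart (w i)) ∧ HasVariable (w i)) →
      ∃ α : Fin 1 → ℝ, LiftsNear G w 1 0 0 α

/-! ### dimensions -/

lemma dz_pos : ∀ n, n ≠ 1 → 0 < dz n
  | 0, _ => by simp [dz]
  | 1, h => absurd rfl h
  | 2, _ => by simp [dz]
  | n + 3, _ => by
    rw [dz]
    by_cases h : n = 1
    · subst h
      simp [dz]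
    · exact Nat.add_pos_right _ (dz_pos n h)

lemma weight_one : {q : List ℕ | Admissible q ∧ q.sum = 1} = ∅ := by
  ext q
  simp only [Set.mem_ofPred_eq, Set.mem_empty_iff_false, iff_false, not_and]
  intro hq hs
  cases q with
  | nil => simp at hs
  | cons s l =>
    have h2 : 2 ≤ s := hq.1
    rw [List.sum_cons] at hs
    omega

lemma fin_dim (G : MotivicValues) (hG : HasDimensions G) (n : ℕ) :
    Module.Finite ℚ (Submodule.span ℚ (G.mot '' {q | Admissible q ∧ q.sum = n})) := by
  by_cases h : n = 1
  · subst h
    rw [weight_one, Set.image_empty, Submodule.span_empty]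
    infer_instance
  · exact Module.finite_of_finrank_pos (by rw [hG n]; exact dz_pos n h)

/-- `per` is injective on the space of the elements of weight `n` if and only if `dim Z_n = d_n` -/
lemma zagier_iff (G : MotivicValues) (hG : HasDimensions G) (n : ℕ) :
    (∀ x ∈ Submodule.span ℚ (G.mot '' {q | Admissible q ∧ q.sum = n}), G.per x = 0 → x = 0) ↔
      Module.finrank ℚ (Z n) = dz n := by
  have hfin := fin_dim G hG n
  have hdim := hG n
  obtain ⟨V, hV⟩ : ∃ V, V = Submodule.span ℚ (G.mot '' {q | Admissible q ∧ q.sum = n}) := ⟨_, rfl⟩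
  rw [← hV] at hfin hdim ⊢
  obtain ⟨f, hf⟩ : ∃ f : G.H →ₗ[ℚ] ℂ, ∀ x, f x = G.per x := ⟨G.per.toRatAlgHom.toLinearMap, fun _ => rfl⟩
  obtain ⟨g, hg⟩ : ∃ g : ℝ →ₗ[ℚ] ℂ, ∀ x, g x = (x : ℂ) := ⟨Complex.ofRealHom.toRatAlgHom.toLinearMap, fun _ => rfl⟩
  have hmap : V.map f = (Z n).map g := by
    rw [hV, Z, Submodule.map_span, Submodule.map_span, Set.image_image, Set.image_image]
    congr 1
    ext y
    constructor
    · rintro ⟨q, hq, rfl⟩
      exact ⟨q, hq, by simp only [hg, hf, G.per_mot q hq.1]⟩
    · rintro ⟨q, hq, rfl⟩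
      exact ⟨q, hq, by simp only [hg, hf, G.per_mot q hq.1]⟩
  have hginj : Function.Injective g := fun x y h => by
    rw [hg, hg] at h
    exact_mod_cast h
  have h1 : Module.finrank ℚ (V.map f) = Module.finrank ℚ (Z n) := by
    rw [hmap]
    exact ((Submodule.equivMapOfInjective g hginj (Z n)).finrank_eq).symm
  have h2 := LinearMap.finrank_range_add_finrank_ker (f.domRestrict V)
  rw [LinearMap.range_domRestrict, h1, hdim] at h2
  have h3 : LinearMap.ker (f.domRestrict V) = ⊥ ↔ ∀ x ∈ V, G.per x = 0 → x = 0 := by
    rw [LinearMap.ker_eq_bot']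
    constructor
    · intro h x hx h0
      have h4 := h ⟨x, hx⟩ (by rw [LinearMap.domRestrict_apply, hf]; exact h0)
      exact congrArg Subtype.val h4
    · rintro h ⟨x, hx⟩ h0
      rw [LinearMap.domRestrict_apply, hf] at h0
      exact Subtype.ext (h x hx h0)
  rw [← h3, ← Submodule.finrank_eq_zero]
  omega

/-! ### indices -/

/-- the admissible indices of weight at most `N` -/
def upTo (N : ℕ∞) : Set (List ℕ) := {q | Admissible q ∧ ((q.sum : ℕ) : ℕ∞) ≤ N}

lemma prefix_adm {q q' : List ℕ} (hq : Admissible q) (h : q' <+: q) : Admissible q' := by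
  obtain ⟨t, rfl⟩ := h
  cases q' with
  | nil => trivial
  | cons s l =>
    rw [List.cons_append] at hq
    exact ⟨hq.1, fun x hx => hq.2 x (List.mem_append_left _ hx)⟩

lemma front (N : ℕ∞) : FrontSet (upTo N) := by
  refine ⟨⟨trivial, by simp⟩, fun q hq => hq.1, fun q hq q' h => ⟨prefix_adm hq.1 h, le_trans ?_ hq.2⟩⟩
  obtain ⟨t, rfl⟩ := h
  rw [List.sum_append]
  exact_mod_cast Nat.le_add_right _ _

lemma mem_constantPart {k : ℕ} : ∀ (w : List (Letter k)) (t : ℕ), t ∈ constantPart w → ∃ u ∈ w, u.2 = 0 ∧ u.1 = t
  | [], t, h => by simp [constantPart] at h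
  | u :: w, t, h => by
    unfold constantPart at h
    split_ifs at h with hu
    · rcases List.mem_cons.1 h with h | h
      · exact ⟨u, List.mem_cons_self, hu, h.symm⟩
      · obtain ⟨v, h1, h2⟩ := mem_constantPart w t h
        exact ⟨v, List.mem_cons_of_mem _ h1, h2⟩
    · simp at h

lemma adm_constantPart {k : ℕ} (w : List (Letter k)) (hw : AdmissiblePattern w) : Admissible (constantPart w) := by
  cases w with
  | nil => trivial
  | cons u w =>
    unfold constantPart
    split_ifs with hu
    · refine ⟨?_, fun t ht => ?_⟩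
      · exact (hw.1 u rfl).resolve_left fun h => h hu
      · obtain ⟨v, h1, h2, h3⟩ := mem_constantPart w t ht
        rw [← h3]
        exact (hw.2 v (List.mem_cons_of_mem _ h1)).resolve_left fun h => h h2
    · trivial

lemma first_iff (G : MotivicValues) (hG : HasDimensions G) (N : ℕ∞) :
    (∀ n, ∀ x ∈ Submodule.span ℚ (G.mot '' {q ∈ upTo N | q.sum = n}), G.per x = 0 → x = 0) ↔
      ∀ n : ℕ, (n : ℕ∞) ≤ N → Module.finrank ℚ (Z n) = dz n := by
  constructor
  · intro h n hn
    rw [← zagier_iff G hG n]
    intro x hx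
    refine h n x (Submodule.span_mono (Set.image_mono ?_) hx)
    rintro q ⟨h1, h2⟩
    exact ⟨⟨h1, by rw [h2]; exact hn⟩, h2⟩
  · intro h n x hx
    by_cases hn : (n : ℕ∞) ≤ N
    · refine (zagier_iff G hG n).2 (h n hn) x (Submodule.span_mono (Set.image_mono ?_) hx)
      rintro q ⟨h1, h2⟩
      exact ⟨h1.1, h2⟩
    · have he : {q ∈ upTo N | q.sum = n} = ∅ := by
        ext q
        simp only [Set.mem_ofPred_eq, Set.mem_empty_iff_false, iff_false, not_and]
        intro h1 h2
        apply hn
        rw [← h2]
        exact h1.2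
      rw [he, Set.image_empty, Submodule.span_empty, Submodule.mem_bot] at hx
      exact fun _ => hx

/-! ### generic tuples -/

lemma near_iff (G : MotivicValues) {k r d : ℕ} (w : Fin r → List (Letter k)) (σ η θ : ℝ) (α : Fin d → ℝ) :
    LiftsNear G w σ η θ α ↔ Run7.h467.GA.Holds σ η θ (fun H s => ¬ Lifts G w H s) α := by
  unfold LiftsNear Run7.h467.GA.Holds
  simp only [not_not]
  exact Iff.rfl

lemma mono (G : MotivicValues) {k r : ℕ} (w : Fin r → List (Letter k)) {H H' : ℝ} {s : Fin k → ℕ} (hH : H ≤ H')
    (h : Lifts G w H' s) : Lifts G w H s := fun c hc => h c fun i => (hc i).trans hH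

lemma generic_of (G : MotivicValues) (P : List ℕ → Prop)
    (h : ∀ (k r : ℕ) (w : Fin r → List (Letter k)), SameWeight w →
      (∀ i, AdmissiblePattern (w i) ∧ P (constantPart (w i))) → AlmostAll k (Lifts G w)) : Generic G P := by
  intro k hk d σ η θ hσ hη hθ hθ1
  have h1 := Run7.h467.GA.metric hk (I := Σ r : ℕ, (Fin r → List (Letter k)))
    (fun i => SameWeight i.2 ∧ ∀ j, AdmissiblePattern (i.2 j) ∧ P (constantPart (i.2 j)))
    (fun i H s => ¬ Lifts G i.2 H s) (fun i H H' s hH hn h' => hn (mono G i.2 hH h'))
    (fun i hi κ => h k i.1 i.2 hi.1 hi.2 κ) d hσ hη hθ hθ1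
  refine (dimH_mono ?_).trans h1
  rintro α ⟨r, w, hs, hw, hH⟩
  exact ⟨⟨r, w⟩, ⟨hs, hw⟩, fun h2 => hH ((near_iff G w σ η θ α).2 h2)⟩

lemma one_of_generic (G : MotivicValues) (P : List ℕ → Prop) (h : Generic G P) : OnePoint G P := by
  have h1 := h 1 le_rfl 1 1 0 0 (by norm_num) le_rfl le_rfl zero_le_one
  obtain ⟨α, hα⟩ := Run7.h467.GA.exists_point le_rfl h1 (by norm_num)
  intro r w hs hw
  refine ⟨α, ?_⟩
  by_contra hcon
  exact hα ⟨r, w, hs, fun i => ⟨(hw i).1, (hw i).2.1⟩, hcon⟩

lemma exists_of_one (G : MotivicValues) (P : List ℕ → Prop) (h : OnePoint G P) (r : ℕ) (w : Fin r → List (Letter 1))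
    (hs : SameWeight w) (hw : ∀ i, AdmissiblePattern (w i) ∧ P (constantPart (w i)) ∧ HasVariable (w i)) (B : ℝ) :
    ∃ s : Fin 1 → ℕ, 2 ≤ s 0 ∧ Lifts G w B s := by
  obtain ⟨α, hα⟩ := h r w hs hw
  obtain ⟨s, h1, -, h3⟩ := Run7.h467.GA.one_point (E := fun H s => ¬ Lifts G w H s)
    (fun H H' s hH hn h' => hn (mono G w hH h')) (C := max B 1) (le_max_right _ _) ((near_iff G w 1 0 0 α).1 hα) 2
  exact ⟨fun _ => s, h1, mono G w (le_max_left _ _) (not_not.1 h3)⟩

/-- **Theorem.** -/
theorem result (G : MotivicValues) :
    -- (1) the dimension conjecture for the weights at most `N`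
    (HasDimensions G → ∀ N : ℕ∞, List.TFAE [
      ∀ n : ℕ, (n : ℕ∞) ≤ N → Module.finrank ℚ (Z n) = dz n,
      Generic G fun q => ((q.sum : ℕ) : ℕ∞) ≤ N,
      OnePoint G fun q => ((q.sum : ℕ) : ℕ∞) ≤ N]) ∧
    -- (2) constant parts of weight at most four, and constant parts `(2 m, ..., 2 m)`
    (SmallRelations G → EulerRelations G →
      Generic G fun q => q.sum ≤ 4 ∨ ∃ n m : ℕ, 1 ≤ m ∧ q = List.replicate n (2 * m)) := by
  obtain ⟨-, r2, -, r4, -⟩ := MP_e54452_nt.AlmostAllTuples.result G
  refine ⟨fun hG N => ?_, fun hS hE => generic_of G _ fun k r w hs hw => r4 hS hE k r w hs hw⟩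
  obtain ⟨-, t3, -⟩ := r2 (upTo N) (front N)
  have e12 := t3.out 0 1
  have e13 := t3.out 0 2
  tfae_have 1 → 2 := by
    intro h
    have hb := e12.1 ((first_iff G hG N).2 h)
    exact generic_of G _ fun k r w hs hw => hb k r w hs fun i =>
      ⟨(hw i).1, adm_constantPart _ (hw i).1, (hw i).2⟩
  tfae_have 2 → 3 := fun h => one_of_generic G _ h
  tfae_have 3 → 1 := by
    intro h
    refine (first_iff G hG N).1 (e13.2 ?_)
    intro r w hs hw B
    exact exists_of_one G _ h r w hs (fun i => ⟨(hw i).1, (hw i).2.1.2, (hw i).2.2⟩) B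
  tfae_finish

end Pool.Agent.Results.MP_56e040_nt.GoodApproximations
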