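import Mathlib
import Pool.Agent.Run7.h792.MZ.Final

/-!
# MP_56e040_nt: many separated multiple zeta values of given weight

For every large `n` there are exponentially many (in a power of `n`) multiple zeta values of weight `n` without integral
relations of exponentially large height between any `m` of them, and between any two of them also for different weights in
`[n, 2 n]`; in particular the multiple zeta values of weight `n` take at least `exp (c (n / log^3 n)^(1/2))` distinct values.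
-/

set_option autoImplicit false

namespace Pool.Agent.Results.MP_56e040_nt.ManySeparatedValues

/-- `trunc [s_1, ..., s_r] m` is the sum of `∏ n_i ^ (-s_i)` over `m > n_1 > ... > n_r ≥ 1` -/
noncomputable def trunc : List ℕ → ℕ → ℝ
  | [], _ => 1
  | s :: l, m => ∑ j ∈ Finset.Ico 1 m, trunc l j / (j : ℝ) ^ s

/-- the multiple zeta value `ζ(s_1, ..., s_r)`, the sum of `∏ n_i ^ (-s_i)` over
`n_1 > ... > n_r ≥ 1` -/
noncomputable def mzv : List ℕ → ℝ
  | [] => 1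
  | s :: l => ∑' m : ℕ, trunc l (m + 1) / ((m + 1 : ℕ) : ℝ) ^ s

/-- the admissible indices of weight `n` -/
def Admissible (n : ℕ) (w : List ℕ) : Prop :=
  (∀ s ∈ w, 1 ≤ s) ∧ (∀ s ∈ w.head?, 2 ≤ s) ∧ w.sum = n

lemma trunc_eq (w : List ℕ) : ∀ m, trunc w m = Pool.Agent.Run7.h792.MZ.trunc w m := by
  induction w with
  | nil => intro m; rw [trunc, Pool.Agent.Run7.h792.MZ.trunc]
  | cons s w ih =>
    intro m
    rw [trunc, Pool.Agent.Run7.h792.MZ.trunc]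
    exact Finset.sum_congr rfl fun j _ => by rw [ih]

lemma mzv_eq (w : List ℕ) : mzv w = Pool.Agent.Run7.h792.MZ.mzv w := by
  cases w with
  | nil => rw [mzv, Pool.Agent.Run7.h792.MZ.mzv]
  | cons s w =>
    rw [mzv, Pool.Agent.Run7.h792.MZ.mzv]
    exact tsum_congr fun m => by rw [trunc_eq]

/-- There is `c > 0` such that for all sufficiently large `n`:
(1) there are at least `exp (c √(n / log^3 n))` distinct multiple zeta values of weight `n`;
(2) for all `m ≥ 1` with `m ^ 2 ≤ c √(n / log^3 n)` there is a set `W` of at least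
`exp (c √(n / log^3 n) / m ^ 2)` admissible indices of weight `n` such that
`|b + ∑_V x_w ζ(w)| ≥ n^(-n)` for all `V ⊆ W` with at most `m` elements, all integers `b` and all integers
`x_w` of absolute value at most `exp (c √(n / log n) / m)`, not all zero;
(3) there are sets `W p`, `n ≤ p ≤ 2 n`, of at least `exp (c √(n / log^3 n))` admissible indices of weight `p`, such
that no two indices of their union satisfy a relation `α ζ(w) = β ζ(w')` with integers of absolute value at most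
`exp (c √(n / log n))`, except `α = β = 0`;
(4) for all `s ≥ 1` with `s ≤ c √(n / log n)`, all integers `b` and all integers `x_j` of absolute value at most
`exp (c n / s)`, not all zero, `|b + ∑_{1 ≤ j ≤ s} x_j ζ(n - j, 1, ..., 1)| ≥ n^(-n)` (with `j` ones). -/
theorem result : ∃ c : ℝ, 0 < c ∧ ∃ n₀ : ℕ, ∀ n : ℕ, n₀ ≤ n →
    -- (1)
    (∃ T : Finset ℝ, Real.exp (c * √((n : ℝ) / Real.log n ^ 3)) ≤ T.card ∧
      ∀ x ∈ T, ∃ w : List ℕ, Admissible n w ∧ mzv w = x) ∧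
    -- (2)
    (∀ m : ℕ, 1 ≤ m → (m : ℝ) ^ 2 ≤ c * √((n : ℝ) / Real.log n ^ 3) → ∃ W : Finset (List ℕ),
      (∀ w ∈ W, Admissible n w) ∧
      Real.exp (c * √((n : ℝ) / Real.log n ^ 3) / (m : ℝ) ^ 2) ≤ W.card ∧
      ∀ V ⊆ W, V.card ≤ m → ∀ (b : ℤ) (x : List ℕ → ℤ),
        (∀ w ∈ V, |(x w : ℝ)| ≤ Real.exp (c * √((n : ℝ) / Real.log n) / m)) →
        (b ≠ 0 ∨ ∃ w ∈ V, x w ≠ 0) → 1 / (n : ℝ) ^ n ≤ |b + ∑ w ∈ V, x w * mzv w|) ∧
    -- (3)
    (∃ W : ℕ → Finset (List ℕ),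
      (∀ p, n ≤ p → p ≤ 2 * n → (∀ w ∈ W p, Admissible p w) ∧
        Real.exp (c * √((n : ℝ) / Real.log n ^ 3)) ≤ (W p).card) ∧
      ∀ p q, n ≤ p → p ≤ 2 * n → n ≤ q → q ≤ 2 * n → ∀ w ∈ W p, ∀ w' ∈ W q, w ≠ w' →
        ∀ α β : ℤ, |(α : ℝ)| ≤ Real.exp (c * √((n : ℝ) / Real.log n)) →
          |(β : ℝ)| ≤ Real.exp (c * √((n : ℝ) / Real.log n)) →
          (α : ℝ) * mzv w = β * mzv w' → α = 0 ∧ β = 0) ∧
    -- (4)
    ∀ s : ℕ, 1 ≤ s → (s : ℝ) ≤ c * √((n : ℝ) / Real.log n) → ∀ (b : ℤ) (x : ℕ → ℤ),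
      (∀ j ∈ Finset.Icc 1 s, |(x j : ℝ)| ≤ Real.exp (c * n / s)) →
      (b ≠ 0 ∨ ∃ j ∈ Finset.Icc 1 s, x j ≠ 0) →
      1 / (n : ℝ) ^ n ≤
        |b + ∑ j ∈ Finset.Icc 1 s, x j * mzv ((n - j) :: List.replicate j 1)| := by
  obtain ⟨c, hc, n₀, h⟩ := Pool.Agent.Run7.h792.MZ.final
  refine ⟨c, hc, n₀, fun n hn => ?_⟩
  simp only [mzv_eq]
  obtain ⟨h1, h2, h3, h4⟩ := h n hn
  refine ⟨?_, ?_, ?_, h4⟩
  · obtain ⟨T, hT, hT2⟩ := h1
    refine ⟨T, hT, fun x hx => ?_⟩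
    obtain ⟨w, hw, hs, hv⟩ := hT2 x hx
    exact ⟨w, ⟨hw.1, hw.2, hs⟩, hv⟩
  · intro m hm hmX
    obtain ⟨W, hW1, hW2, hW3⟩ := h2 m hm hmX
    exact ⟨W, fun w hw => ⟨(hW1 w hw).1.1, (hW1 w hw).1.2, (hW1 w hw).2⟩, hW2, hW3⟩
  · obtain ⟨W, hW1, hW2⟩ := h3
    exact ⟨W, fun p hp hp2 => ⟨fun w hw => ⟨((hW1 p hp hp2).1 w hw).1.1, ((hW1 p hp hp2).1 w hw).1.2,
      ((hW1 p hp hp2).1 w hw).2⟩, (hW1 p hp hp2).2⟩, hW2⟩

end Pool.Agent.Results.MP_56e040_nt.ManySeparatedValues
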