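import Mathlib
import Pool.Agent.Run7.h53.TI.Coin2

/-!
# MP_56e040_nt: a linear relation holds for a proportion at most `C n ^ (- 3 / 2)` of the tuples of Hoffman elements

Let `hoffman n` be the set of the words of weight `n` in the letters `2` and `3`; there are `d_n` of them. Their multiple zeta
values span the space of all multiple zeta values of weight `n` (Brown), and so the conjecture says that they are linearly
independent over the rational numbers; in particular they should be different. We prove: every real number is the value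
`ζ(w)` for at most `C n ^ (- 3 / 2) d_n` of the words `w` of weight `n`. Consequently a given linear relation
`c_0 + c_1 ζ(w_1) + ... + c_N ζ(w_N) = 0` with arbitrary real coefficients (`c_1, ..., c_N` not all zero) holds for a
proportion at most `C n ^ (- 3 / 2)` of the tuples of words of weights at least `n`, with `C` independent of `N` and of
the relation. So almost all tuples satisfy none of any `n ^ (3 / 2 - ε)` given relations. The exponent is the one in the
theorem of Sárközy and Szemerédi on subset sums of different numbers.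

Proof. Divide the word of length `k` into blocks of lengths proportional to `k`. Exchanging a `3` in the block `L` with
a `2` in the block `S` behind it, at the distance `6 [k / 12]`, multiplies `ζ` by at least `1 + 5 / 42`; so the words with
all other letters given and with values in a short interval form an antichain of a cube, of proportion `O(n ^ (- 1 / 2))` by
Sperner's theorem. In the block `Y` behind `S` we move one `3`. Each step past a `2` increases the value strictly
(`swap_lt`), and all steps together by a bounded factor only (`move_bdd`). For a word with a letter `3` of the block `Y` removed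
there is at most one position where the insertion of the `3` gives the value `v`, and the words for which there is such
a position have the property that the value with the `3` at the front of `Y` is in `[v / 128, v]`, which is a proportion
`O(n ^ (- 1 / 2))`. As a word has in general a number of letters `3` in `Y` proportional to `n`, double counting gives the
additional factor `1 / n`. The words with few exchangeable pairs or few letters are exponentially rare.
-/

set_option autoImplicit false

namespace Pool.Agent.Results.MP_56e040_nt.RareCoincidences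

/-- the multiple zeta value `ζ(s_1, ..., s_k)` of the list `[s_1, ..., s_k]`, the sum over `n_1 > ... > n_k > 0` -/
noncomputable def mzv (l : List ℕ) : ℝ :=
  ∑' m : {m : Fin l.length → ℕ // StrictAnti m ∧ ∀ i, 0 < m i}, ∏ i, ((m.1 i : ℝ) ^ (l.get i))⁻¹

/-- the words of weight `n` in the letters `2` and `3` -/
def hoffman (n : ℕ) : Set (List ℕ) := {w | (∀ x ∈ w, x = 2 ∨ x = 3) ∧ w.sum = n}

lemma mzv_eq {l : List ℕ} (hl : Pool.Agent.H447R2.MZ.Adm l) : mzv l = Pool.Agent.H447R2.MZ.val l := by
  have h1 := Pool.Agent.H447R2.MZ.hasSum_val l.length l.get (by rw [List.ofFn_get]; exact hl)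
  rw [List.ofFn_get] at h1
  exact h1.tsum_eq

lemma coe_hw (n : ℕ) : ((Run7.h53.TI.hw n : Finset (List ℕ)) : Set (List ℕ)) = hoffman n := by
  ext w
  rw [Finset.mem_coe, Run7.h53.TI.mem_hw]
  rfl

lemma card_hw (n : ℕ) : (hoffman n).ncard = (Run7.h53.TI.hw n).card := by
  rw [← coe_hw, Set.ncard_coe_finset]

lemma mem_iff {n : ℕ} {w : List ℕ} : w ∈ hoffman n ↔ w ∈ Run7.h53.TI.hw n := by
  rw [← coe_hw, Finset.mem_coe]

/-- **Theorem.** There is a constant `C` such that for all `n ≥ 1`
(1) every real number `v` is the multiple zeta value of at most `C n ^ (- 3 / 2)` times the number of all words of the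
words in `hoffman n`;
(2) for all `k_1, ..., k_N ≥ n` and every finite set `Γ` of vectors `(c_0, (c_1, ..., c_N))` of real numbers with
`c_1, ..., c_N` not all zero, the number of tuples of words `w_i ∈ hoffman (k_i)` with `c_0 + ∑ c_i ζ(w_i) = 0` for some
vector in `Γ` is at most `|Γ| C n ^ (- 3 / 2)` times the number of all tuples. (All these sets are finite.) -/
theorem result : (∀ n, (hoffman n).Finite) ∧ ∃ C : ℝ, 0 < C ∧
    (∀ n : ℕ, 1 ≤ n → ∀ v : ℝ, (({w ∈ hoffman n | mzv w = v}.ncard : ℕ) : ℝ) ≤
      C / (n * Real.sqrt n) * ((hoffman n).ncard : ℝ)) ∧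
    (∀ (N n : ℕ) (k : Fin N → ℕ), 1 ≤ n → (∀ i, n ≤ k i) →
      ∀ Γ : Finset (ℝ × (Fin N → ℝ)), (∀ γ ∈ Γ, ∃ i, γ.2 i ≠ 0) →
      (({w : Fin N → List ℕ | (∀ i, w i ∈ hoffman (k i)) ∧
          ∃ γ ∈ Γ, γ.1 + ∑ i, γ.2 i * mzv (w i) = 0}.ncard : ℕ) : ℝ) ≤
        Γ.card * (C / (n * Real.sqrt n)) * ∏ i, ((hoffman (k i)).ncard : ℝ)) := by
  classical
  refine ⟨fun n => by rw [← coe_hw]; exact Finset.finite_toSet _, ?_⟩
  obtain ⟨C, hC, h⟩ := Run7.h53.TI.coincidences
  have h1 : ∀ n : ℕ, 1 ≤ n → ∀ v : ℝ, (((Run7.h53.TI.hw n).filter fun w : List ℕ => mzv w = v).card : ℝ) ≤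
      C / (n * Real.sqrt n) * ((Run7.h53.TI.hw n).card : ℝ) := by
    intro n hn v
    refine le_trans (le_of_eq ?_) (h n hn v)
    congr 2
    refine Finset.filter_congr fun w hw => ?_
    rw [mzv_eq (Run7.h53.TI.hw_adm hw)]
  refine ⟨C, hC, fun n hn v => ?_, fun N n k hn hk Γ hΓ => ?_⟩
  · have e : {w ∈ hoffman n | mzv w = v} =
        (((Run7.h53.TI.hw n).filter fun w : List ℕ => mzv w = v : Finset (List ℕ)) : Set (List ℕ)) := by
      ext w
      rw [Finset.mem_coe, Finset.mem_filter, ← mem_iff]
      rfl
    rw [e, Set.ncard_coe_finset, card_hw]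
    exact h1 n hn v
  · have hn0 : (0 : ℝ) < n := by exact_mod_cast hn
    have hs : 0 < Real.sqrt n := Real.sqrt_pos.2 hn0
    simp only [card_hw]
    set F : Finset (Fin N → List ℕ) := Fintype.piFinset fun i => Run7.h53.TI.hw (k i) with hF
    set P : ℝ := ∏ i, ((Run7.h53.TI.hw (k i)).card : ℝ) with hP
    have e : {w : Fin N → List ℕ | (∀ i, w i ∈ hoffman (k i)) ∧
        ∃ γ ∈ Γ, γ.1 + ∑ i, γ.2 i * mzv (w i) = 0} =
        ((Γ.biUnion fun γ => F.filter fun w => γ.1 + ∑ i, γ.2 i * mzv (w i) = 0 :
          Finset (Fin N → List ℕ)) : Set (Fin N → List ℕ)) := by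
      ext w
      simp only [Set.mem_ofPred_eq, Finset.coe_biUnion, Set.mem_iUnion, Finset.mem_coe,
        Finset.mem_filter, hF, Fintype.mem_piFinset, mem_iff]
      constructor
      · rintro ⟨h2, γ, h3, h4⟩
        exact ⟨γ, h3, h2, h4⟩
      · rintro ⟨γ, h3, h2, h4⟩
        exact ⟨h2, γ, h3, h4⟩
    rw [e, Set.ncard_coe_finset]
    have key : ∀ γ ∈ Γ, ((F.filter fun w => γ.1 + ∑ i, γ.2 i * mzv (w i) = 0).card : ℝ) ≤
        C / (n * Real.sqrt n) * P := by
      intro γ hγ
      obtain ⟨j, hj⟩ := hΓ γ hγ
      set B := F.filter fun w => γ.1 + ∑ i, γ.2 i * mzv (w i) = 0 with hB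
      set X : ℝ := C / (n * Real.sqrt n) * ((Run7.h53.TI.hw (k j)).card : ℝ) with hX
      have hX0 : 0 ≤ X := by positivity
      set g : (Fin N → List ℕ) → (Fin N → List ℕ) := fun w => Function.update w j [] with hg
      have h2 : B.card ≤ ⌊X⌋₊ * (B.image g).card := by
        refine Finset.card_le_mul_card_image B _ fun a ha => ?_
        obtain ⟨w0, hw0, rfl⟩ := Finset.mem_image.1 ha
        rw [Nat.le_floor_iff hX0]
        set x : ℝ := -(γ.1 + ∑ i ∈ Finset.univ.erase j, γ.2 i * mzv (w0 i)) / γ.2 j with hx
        have h3 : (B.filter fun y => g y = g w0).card ≤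
            ((Run7.h53.TI.hw (k j)).filter fun w : List ℕ => mzv w = x).card := by
          refine Finset.card_le_card_of_injOn (fun y => y j) (fun y hy => ?_) fun y hy y' hy' heq => ?_
          · obtain ⟨hy1, hy2⟩ := Finset.mem_filter.1 (Finset.mem_coe.1 hy)
            obtain ⟨hy3, hy4⟩ := Finset.mem_filter.1 hy1
            rw [Fintype.mem_piFinset] at hy3
            rw [Finset.mem_coe, Finset.mem_filter]
            refine ⟨hy3 j, ?_⟩
            have h4 : ∑ i ∈ Finset.univ.erase j, γ.2 i * mzv (y i) =
                ∑ i ∈ Finset.univ.erase j, γ.2 i * mzv (w0 i) := by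
              refine Finset.sum_congr rfl fun i hi => ?_
              have hij : i ≠ j := Finset.ne_of_mem_erase hi
              have h5 := congrFun hy2 i
              simp only [hg, Function.update_of_ne hij] at h5
              rw [h5]
            have h5 := Finset.add_sum_erase Finset.univ (fun i => γ.2 i * mzv (y i)) (Finset.mem_univ j)
            rw [hx, ← h4, eq_div_iff hj]
            linarith
          · obtain ⟨_, hy2⟩ := Finset.mem_filter.1 (Finset.mem_coe.1 hy)
            obtain ⟨_, hy2'⟩ := Finset.mem_filter.1 (Finset.mem_coe.1 hy')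
            funext l
            by_cases hl : l = j
            · subst hl; exact heq
            · have h5 := congrFun (hy2.trans hy2'.symm) l
              simp only [hg, Function.update_of_ne hl] at h5
              exact h5
        have h4 := h1 (k j) (hn.trans (hk j)) x
        have h5 : ((B.filter fun y => g y = g w0).card : ℝ) ≤
            (((Run7.h53.TI.hw (k j)).filter fun w : List ℕ => mzv w = x).card : ℝ) := by
          exact_mod_cast h3
        refine h5.trans (h4.trans ?_)
        rw [hX]
        have hkj : (n : ℝ) ≤ k j := by exact_mod_cast hk j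
        gcongr
      have h3 : (B.image g).card ≤ ∏ l ∈ Finset.univ.erase j, (Run7.h53.TI.hw (k l)).card := by
        have h4 : B.image g ⊆ Fintype.piFinset fun l => if l = j then {[]} else Run7.h53.TI.hw (k l) := by
          intro a ha
          obtain ⟨w, hw', rfl⟩ := Finset.mem_image.1 ha
          have hw0' := (Finset.mem_filter.1 hw').1
          rw [Fintype.mem_piFinset] at hw0' ⊢
          intro l
          by_cases hl : l = j
          · subst hl
            simp [hg]
          · simp only [hg, Function.update_of_ne hl, if_neg hl]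
            exact hw0' l
        refine (Finset.card_le_card h4).trans (le_of_eq ?_)
        rw [Fintype.card_piFinset, ← Finset.mul_prod_erase Finset.univ _ (Finset.mem_univ j)]
        simp only [if_true, Finset.card_singleton, one_mul]
        refine Finset.prod_congr rfl fun l hl => ?_
        rw [if_neg (Finset.ne_of_mem_erase hl)]
      have h4 : ((B.image g).card : ℝ) ≤ ∏ l ∈ Finset.univ.erase j, ((Run7.h53.TI.hw (k l)).card : ℝ) := by
        exact_mod_cast h3
      have h5 : (B.card : ℝ) ≤ (⌊X⌋₊ : ℝ) * ((B.image g).card : ℝ) := by exact_mod_cast h2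
      calc (B.card : ℝ) ≤ (⌊X⌋₊ : ℝ) * ((B.image g).card : ℝ) := h5
        _ ≤ X * ∏ l ∈ Finset.univ.erase j, ((Run7.h53.TI.hw (k l)).card : ℝ) :=
            mul_le_mul (Nat.floor_le hX0) h4 (by positivity) hX0
        _ = C / (n * Real.sqrt n) * (((Run7.h53.TI.hw (k j)).card : ℝ) *
              ∏ l ∈ Finset.univ.erase j, ((Run7.h53.TI.hw (k l)).card : ℝ)) := by rw [hX]; ring
        _ = _ := by
            rw [Finset.mul_prod_erase Finset.univ (fun l => ((Run7.h53.TI.hw (k l)).card : ℝ))
              (Finset.mem_univ j)]
    calc (((Γ.biUnion fun γ => F.filter fun w => γ.1 + ∑ i, γ.2 i * mzv (w i) = 0).card : ℕ) : ℝ) ≤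
          ∑ γ ∈ Γ, ((F.filter fun w => γ.1 + ∑ i, γ.2 i * mzv (w i) = 0).card : ℝ) := by
          exact_mod_cast Finset.card_biUnion_le
      _ ≤ ∑ γ ∈ Γ, C / (n * Real.sqrt n) * P := Finset.sum_le_sum key
      _ = _ := by rw [Finset.sum_const, nsmul_eq_mul]; ring

end Pool.Agent.Results.MP_56e040_nt.RareCoincidences
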