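import Pool.Agent.Run7.h53.RS.Poly
import Pool.Agent.H447R2.MZ.Tup

/-!
# On every rising line a relation between multiple zeta values holds for few shifts

Let `a = (a_1, ..., a_r)` be a nonzero vector of integers with nonnegative partial sums `a_1 + ... + a_l ≥ 0`, and `k` a vector
of integers. We consider the points `k + e a`, `e ≥ 0`, of a line. If `a_1 + ... + a_r = 0` all of them have the same weight;
for example `a = (1, -1)` gives `ζ(k_1 + e, k_2 - e)`, and for `r = 1`, `a = (2)` we have the values `ζ(k + 2 e)`.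

For real numbers `c_0, ..., c_D`, not all zero, and a real number `B` (for example a fixed combination of other multiple zeta
values) we consider the relations `c_0 ζ(k + e a) + c_1 ζ(k + (e + 1) a) + ... + c_D ζ(k + (e + D) a) = B`, `e ≥ 0`. The number of
the `e` for which it holds (all indices with `c_d ≠ 0` being admissible) is at most the number `V` of the roots in `(0, 1)` of
the polynomial `c_0 + c_1 x + ... + c_D x ^ D` (with multiplicities), if `B = 0`, and at most `V + 1`, if `B ≠ 0`. By Descartes
`V` is at most the number of the sign changes of `c_0, ..., c_D`. There is no assumption on the arithmetic of the coefficients.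

Proof: the left side is the integral of `x ^ e P(x)` for a positive measure on the numbers `x = ∏ n_l ^ (-a_l)`, which lie in
`(0, 1]` as the partial sums are nonnegative. If it were `B` for `V + 2` values `e`, take a polynomial `q ≠ 0` with these
exponents `e` which is divisible by `(x - 1) ∏ (x - y)`, `y` the roots. By the rule of signs of Descartes `q` has no further
positive roots, so `P q` has constant sign on `(0, 1)`, and its integral, which is `B q(1) = 0`, is not `0`.
-/

set_option autoImplicit false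

namespace Pool.Agent.Results.MP_56e040_nt.RareShifts

open Polynomial Finset

/-- the multiple zeta value `ζ(k_1, ..., k_r)`, the sum over `n_1 > ... > n_r > 0` (the index set is `0, ..., r - 1`) -/
noncomputable def zeta {r : ℕ} (k : Fin r → ℤ) : ℝ :=
  ∑' n : {n : Fin r → ℕ // StrictAnti n ∧ ∀ l, 0 < n l}, ∏ l, ((n.1 l : ℝ) ^ k l)⁻¹

/-- positive arguments, the first one (if there is one) is at least two -/
def Admissible {r : ℕ} (k : Fin r → ℤ) : Prop := (∀ l, 1 ≤ k l) ∧ ∀ h : 0 < r, 2 ≤ k ⟨0, h⟩

/-- the point `k + e a` of the line -/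
def line {r : ℕ} (k a : Fin r → ℤ) (e : ℕ) : Fin r → ℤ := fun l => k l + e * a l

variable {r : ℕ}

/-- the tuples -/
abbrev Tp (r : ℕ) : Type := {n : Fin r → ℕ // StrictAnti n ∧ ∀ l, 0 < n l}

lemma pos (n : Tp r) (l : Fin r) : (0 : ℝ) < n.1 l := by exact_mod_cast n.2.2 l

lemma hasSum_zeta {k : Fin r → ℤ} (hk : Admissible k) :
    HasSum (fun n : Tp r => ∏ l, ((n.1 l : ℝ) ^ k l)⁻¹) (zeta k) := by
  obtain ⟨k', hk'⟩ : ∃ k' : Fin r → ℕ, ∀ l, k l = (k' l : ℤ) :=
    ⟨fun l => (k l).toNat, fun l => (Int.toNat_of_nonneg (by have := hk.1 l; omega)).symm⟩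
  have hadm : Pool.Agent.H447R2.MZ.Adm (List.ofFn k') := by
    constructor
    · intro x hx
      rw [List.mem_ofFn] at hx
      obtain ⟨l, rfl⟩ := hx
      have := hk.1 l
      rw [hk'] at this
      omega
    · intro x t hxt
      cases r with
      | zero => simp at hxt
      | succ m =>
        rw [List.ofFn_succ] at hxt
        rw [← (List.cons.inj hxt).1]
        have := hk.2 (Nat.succ_pos m)
        rw [hk'] at this
        exact_mod_cast this
  have h1 := Pool.Agent.H447R2.MZ.hasSum_val r k' hadm
  have e : (fun n : Tp r => ∏ l, ((n.1 l : ℝ) ^ k l)⁻¹) =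
      fun n : Tp r => ∏ l, (((n.1 l : ℕ) : ℝ) ^ k' l)⁻¹ := by
    funext n
    refine Finset.prod_congr rfl fun l _ => ?_
    rw [hk', zpow_natCast]
  have h2 : zeta k = Pool.Agent.H447R2.MZ.val (List.ofFn k') := by
    unfold zeta
    rw [e]
    exact h1.tsum_eq
  rw [h2, e]
  exact h1

/-- the weights -/
noncomputable def wt (k : Fin r → ℤ) (n : Tp r) : ℝ := ∏ l, ((n.1 l : ℝ) ^ k l)⁻¹

lemma wt_pos (k : Fin r → ℤ) (n : Tp r) : 0 < wt k n :=
  Finset.prod_pos fun l _ => inv_pos.2 (zpow_pos (pos n l) _)

lemma wt_line (k a : Fin r → ℤ) (e : ℕ) (n : Tp r) : wt (line k a e) n = wt k n * wt a n ^ e := by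
  unfold wt line
  rw [← Finset.prod_pow, ← Finset.prod_mul_distrib]
  refine Finset.prod_congr rfl fun l _ => ?_
  rw [zpow_add₀ (pos n l).ne', mul_inv, mul_comm (e : ℤ) (a l), zpow_mul, zpow_natCast, inv_pow]

/-- Abel summation -/
lemma abel : ∀ (r : ℕ) (a y : Fin r → ℝ), Antitone y → (∀ l, 0 ≤ y l) →
    (∀ l, 0 ≤ ∑ l', if l' ≤ l then a l' else 0) → 0 ≤ ∑ l, a l * y l := by
  intro r
  induction r with
  | zero => intro a y _ _ _; simp
  | succ r ih =>
    intro a y hy hy0 ha
    have h1 := ih (fun l => a l.castSucc) (fun l => y l.castSucc - y (Fin.last r))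
      (fun l l' h => sub_le_sub_right (hy (Fin.castSucc_le_castSucc_iff.2 h)) _)
      (fun l => sub_nonneg.2 (hy (Fin.le_last _)))
      (fun l => by
        have := ha l.castSucc
        rw [Fin.sum_univ_castSucc] at this
        simpa [Fin.castSucc_le_castSucc_iff, Fin.last_le_iff] using this)
    have h2 : 0 ≤ ∑ l, a l := by
      have := ha (Fin.last r)
      simpa [Fin.le_last] using this
    have h3 : ∑ l, a l * y l = ∑ l : Fin r, a l.castSucc * (y l.castSucc - y (Fin.last r)) +
        (∑ l, a l) * y (Fin.last r) := by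
      rw [Fin.sum_univ_castSucc, Fin.sum_univ_castSucc (f := a), add_mul, Finset.sum_mul]
      simp only [mul_sub, Finset.sum_sub_distrib]
      ring
    rw [h3]
    exact add_nonneg h1 (mul_nonneg h2 (hy0 _))

lemma wt_le_one {a : Fin r → ℤ} (ha : ∀ l, 0 ≤ ∑ l' ∈ univ.filter (fun l' => l' ≤ l), a l') (n : Tp r) :
    wt a n ≤ 1 := by
  have h1 : Real.log (wt a n) = -∑ l, (a l : ℝ) * Real.log (n.1 l) := by
    unfold wt
    rw [Real.log_prod fun l _ => (inv_pos.2 (zpow_pos (pos n l) _)).ne', ← Finset.sum_neg_distrib]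
    refine Finset.sum_congr rfl fun l _ => ?_
    rw [Real.log_inv, Real.log_zpow]
  have h2 := abel r (fun l => (a l : ℝ)) (fun l => Real.log (n.1 l))
    (fun l l' h => Real.log_le_log (pos n l') (by exact_mod_cast n.2.1.antitone h))
    (fun l => Real.log_nonneg (by exact_mod_cast n.2.2 l))
    (fun l => by
      have := ha l
      rw [Finset.sum_filter] at this
      exact_mod_cast this)
  have h3 : Real.log (wt a n) ≤ 0 := by rw [h1]; linarith
  by_contra h4
  push Not at h4
  exact absurd (Real.log_pos h4) (not_lt.2 h3)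

/-- infinitely many points -/
lemma infinite_points {a : Fin r → ℤ} (ha : a ≠ 0) : (Set.range fun n : Tp r => wt a n).Infinite := by
  classical
  obtain ⟨l₁, hl₁⟩ : ∃ l, a l ≠ 0 := by
    by_contra h
    push Not at h
    exact ha (funext h)
  -- the first nonzero entry
  obtain ⟨l₀, hl₀, hmin⟩ := (univ.filter fun l => a l ≠ 0).exists_minimal
    ⟨l₁, Finset.mem_filter.2 ⟨Finset.mem_univ _, hl₁⟩⟩
  rw [Finset.mem_filter] at hl₀
  have hz : ∀ l, l < l₀ → a l = 0 := by
    intro l hl
    by_contra h
    exact absurd (hmin (Finset.mem_filter.2 ⟨Finset.mem_univ _, h⟩) hl.le) (not_le.2 hl)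
  set g : ℕ → Tp r := fun M =>
    ⟨fun l => if l ≤ l₀ then M + r + (l₀.val - l.val) else r - l.val, fun l l' h => by
      have h1 : l.val < l'.val := h
      have h2 := l'.2
      show (if l' ≤ l₀ then M + r + (l₀.val - l'.val) else r - l'.val) <
        (if l ≤ l₀ then M + r + (l₀.val - l.val) else r - l.val)
      simp only [Fin.le_def]
      split_ifs <;> omega, fun l => by
      have h2 := l.2
      show 0 < (if l ≤ l₀ then M + r + (l₀.val - l.val) else r - l.val)
      split_ifs <;> omega⟩ with hg
  have hinj : Function.Injective fun M : ℕ => wt a (g M) := by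
    intro M M' h
    have h0 : ∀ M : ℕ, ((g M).1 l₀ : ℝ) = M + r := by
      intro M
      have : (g M).1 l₀ = M + r := by
        show (if l₀ ≤ l₀ then M + r + (l₀.val - l₀.val) else r - l₀.val) = M + r
        simp
      rw [this]
      push_cast
      rfl
    have h1 : ∀ M : ℕ, wt a (g M) = (((M : ℝ) + r) ^ a l₀)⁻¹ *
        ∏ l ∈ univ.erase l₀, (((r - l.val : ℕ) : ℝ) ^ a l)⁻¹ := by
      intro M
      unfold wt
      rw [← Finset.mul_prod_erase _ _ (Finset.mem_univ l₀), h0]
      congr 1
      refine Finset.prod_congr rfl fun l hl => ?_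
      have hne := Finset.ne_of_mem_erase hl
      by_cases hle : l ≤ l₀
      · rw [hz l (lt_of_le_of_ne hle hne), zpow_zero, zpow_zero]
      · have : (g M).1 l = r - l.val := by
          show (if l ≤ l₀ then M + r + (l₀.val - l.val) else r - l.val) = r - l.val
          rw [if_neg hle]
        rw [this]
    simp only [h1] at h
    have hr : 0 < r := l₀.pos
    have hr' : (0 : ℝ) < r := by exact_mod_cast hr
    have h2 : ∏ l ∈ univ.erase l₀, (((r - l.val : ℕ) : ℝ) ^ a l)⁻¹ ≠ 0 := by
      refine Finset.prod_ne_zero_iff.2 fun l _ => inv_ne_zero (zpow_ne_zero _ ?_)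
      have : 0 < r - l.val := by have := l.2; omega
      exact_mod_cast this.ne'
    have h3 := inv_injective (mul_right_cancel₀ h2 h)
    have h4 : (M : ℝ) + r = M' + r := (zpow_left_inj₀ (by positivity) (by positivity) hl₀.2).1 h3
    exact_mod_cast add_right_cancel h4
  refine (Set.infinite_range_of_injective hinj).mono ?_
  rintro _ ⟨M, rfl⟩
  exact ⟨g M, rfl⟩

/-- the left side of the relation as an integral -/
lemma hasSum_rel (k a : Fin r → ℤ) (P : ℝ[X]) {e : ℕ} (he : ∀ d ∈ P.support, Admissible (line k a (e + d))) :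
    HasSum (fun n : Tp r => wt k n * (wt a n ^ e * P.eval (wt a n)))
      (∑ d ∈ P.support, P.coeff d * zeta (line k a (e + d))) := by
  have h1 := hasSum_sum (s := P.support) fun d hd => (hasSum_zeta (he d hd)).mul_left (P.coeff d)
  refine h1.congr_fun ?_
  intro n
  rw [eval_eq_sum, sum_def, Finset.mul_sum, Finset.mul_sum]
  refine Finset.sum_congr rfl fun d _ => ?_
  have h2 : ∏ l, ((n.1 l : ℝ) ^ line k a (e + d) l)⁻¹ = wt k n * wt a n ^ (e + d) := wt_line k a (e + d) n
  rw [h2, pow_add]
  ring

/-- **Theorem.** Let `k`, `a` be vectors of `r` integers, `a ≠ 0`, and `a_1 + ... + a_l ≥ 0` for all `l`. Let `P ≠ 0` be a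
polynomial with real coefficients `c_0, ..., c_D`, let `V` be the number of its roots in `(0, 1)`, counted with
multiplicities, and `B` a real number. There are at most `V` integers `e ≥ 0`, if `B = 0`, and at most `V + 1`, if `B ≠ 0`,
such that the indices `k + (e + d) a` with `c_d ≠ 0` are admissible and `∑_d c_d ζ(k + (e + d) a) = B`. The number `V` is at
most the number of the sign changes of `c_0, ..., c_D`. -/
theorem result (r : ℕ) (k a : Fin r → ℤ) (ha : a ≠ 0)
    (hs : ∀ l, 0 ≤ ∑ l' ∈ univ.filter (fun l' => l' ≤ l), a l') (P : ℝ[X]) (hP : P ≠ 0) (B : ℝ) :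
    {e : ℕ | (∀ d ∈ P.support, Admissible (line k a (e + d))) ∧
      ∑ d ∈ P.support, P.coeff d * zeta (line k a (e + d)) = B}.encard ≤
        ((P.roots.countP (fun x => 0 < x ∧ x < 1) + if B = 0 then 0 else 1 : ℕ) : ℕ∞) ∧
    P.roots.countP (fun x => 0 < x ∧ x < 1) ≤ P.signVariations := by
  classical
  constructor
  · set Z : Set ℕ := {e : ℕ | (∀ d ∈ P.support, Admissible (line k a (e + d))) ∧
      ∑ d ∈ P.support, P.coeff d * zeta (line k a (e + d)) = B} with hZ
    by_contra hcon
    push Not at hcon
    have hc : P.roots.countP (fun x => 0 < x ∧ x < 1) = Multiset.card (Run7.h53.RS.Y P) := by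
      rw [Multiset.countP_eq_card_filter]
      rfl
    rw [hc] at hcon
    set b : ℕ := if B = 0 then 0 else 1 with hb
    obtain ⟨T', hT'Z, hT'c⟩ := Set.exists_subset_encard_eq (Order.add_one_le_of_lt hcon)
    have hT'f : T'.Finite := Set.finite_of_encard_eq_coe (k := Multiset.card (Run7.h53.RS.Y P) + b + 1) (by
      rw [hT'c]; push_cast; rfl)
    set T : Finset ℕ := hT'f.toFinset with hTdef
    have hTc : T.card = Multiset.card (Run7.h53.RS.Y P) + b + 1 := by
      have h1 := hT'f.encard_eq_coe_toFinset_card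
      rw [hT'c] at h1
      exact_mod_cast h1.symm
    obtain ⟨q, hq0, hqT, hqE, hq⟩ := Run7.h53.RS.key P hP b T hTc
    have hT : ∀ e ∈ T, e ∈ Z := fun e he => hT'Z (hT'f.mem_toFinset.1 he)
    have h1 := hasSum_sum (s := T) fun e he => (hasSum_rel k a P (hT e he).1).mul_left (q.coeff e)
    have hq1 : B * q.eval 1 = 0 := by
      by_cases hB : B = 0
      · rw [hB, zero_mul]
      · obtain ⟨Q, hQ⟩ := hqE
        have hb1 : b = 1 := by rw [hb, if_neg hB]
        rw [hQ, hb1, eval_mul]
        simp
    have heval : ∀ x : ℝ, q.eval x = ∑ e ∈ T, q.coeff e * x ^ e := by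
      intro x
      rw [eval_eq_sum, sum_def]
      refine Finset.sum_subset hqT fun e _ he => ?_
      rw [notMem_support_iff.1 he, zero_mul]
    have h2 : ∑ e ∈ T, q.coeff e * ∑ d ∈ P.support, P.coeff d * zeta (line k a (e + d)) = 0 := by
      rw [← hq1, heval, Finset.mul_sum]
      refine Finset.sum_congr rfl fun e he => ?_
      rw [(hT e he).2, one_pow]
      ring
    rw [h2] at h1
    have h3 : ∀ n : Tp r, ∑ e ∈ T, q.coeff e * (wt k n * (wt a n ^ e * P.eval (wt a n))) =
        wt k n * (P.eval (wt a n) * q.eval (wt a n)) := by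
      intro n
      rw [heval, Finset.mul_sum, Finset.mul_sum]
      refine Finset.sum_congr rfl fun e _ => ?_
      ring
    have h8 := (hasSum_zero_iff_of_nonneg (fun n => by
      show (0 : ℝ) ≤ ∑ e ∈ T, q.coeff e * (wt k n * (wt a n ^ e * P.eval (wt a n)))
      rw [h3]
      exact mul_nonneg (wt_pos k n).le (hq _ (wt_pos a n) (wt_le_one hs n)))).1 h1
    have h9 : ∀ n : Tp r, (P * q).eval (wt a n) = 0 := by
      intro n
      have h10 := congrFun h8 n
      simp only [Pi.zero_apply] at h10
      rw [h3] at h10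
      rw [eval_mul]
      exact (mul_eq_zero.1 h10).resolve_left (wt_pos k n).ne'
    refine mul_ne_zero hP hq0 (eq_zero_of_infinite_isRoot _ ((infinite_points ha).mono ?_))
    rintro _ ⟨n, rfl⟩
    exact h9 n
  · refine le_trans ?_ P.roots_countP_pos_le_signVariations
    rw [Multiset.countP_eq_card_filter, Multiset.countP_eq_card_filter]
    exact Multiset.card_le_card (Multiset.monotone_filter_right _ fun x h => h.1)

end Pool.Agent.Results.MP_56e040_nt.RareShifts
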